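import Pool.Agent.helper92.Borg.Cover

/-!
# A Schroedinger operator on the 3-regular tree with non-constant periodic potential and no gap

`G` is the complete graph with the four vertices `0, 1, 2, 3`, all edge weights are `1`, the potential is
`1/10` at the vertex `0` and `0` at the other three vertices.
-/

set_option autoImplicit false

namespace Pool.Agent.Results.MP_3a9720_mp.BorgCounterexample

/-- `T` is a universal cover of the graph `G`, with covering map `π`: `T` is a tree, and `π` maps the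
neighbours of each vertex `v` bijectively onto the neighbours of `π v`. -/
def IsUniversalCover {V W : Type} (T : SimpleGraph V) (G : SimpleGraph W) (π : V → W) : Prop :=
  T.IsTree ∧ ∀ v : V, Set.BijOn π (T.neighborSet v) (G.neighborSet (π v))

/-- `f` belongs to `ℓ²(V)`. -/
def InL2 {V : Type} (f : V → ℂ) : Prop := Summable fun v => ‖f v‖ ^ 2

/-- The operator `A_T + b ∘ π`: the sum of `f` over the neighbours of `v`, plus `b (π v) f(v)`. -/
noncomputable def op {V W : Type} (T : SimpleGraph V) (π : V → W) (b : W → ℝ) (f : V → ℂ) (v : V) : ℂ :=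
  (∑' w : T.neighborSet v, f w) + (b (π v) : ℂ) * f v

/-- `L` maps `ℓ²(V)` to `ℓ²(V)` and is bounded there. -/
def IsBoundedOp {V : Type} (L : (V → ℂ) → V → ℂ) : Prop :=
  ∃ C : ℝ, ∀ f : V → ℂ, InL2 f → InL2 (L f) ∧ ∑' v, ‖L f v‖ ^ 2 ≤ C * ∑' v, ‖f v‖ ^ 2

/-- The spectrum of a bounded operator `L` of `ℓ²(V)`: the complex numbers `z` for which `L - z` is not a
bijection of `ℓ²(V)` (a bijective bounded operator has a bounded inverse). -/
def spec {V : Type} (L : (V → ℂ) → V → ℂ) : Set ℂ :=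
  {z : ℂ | ¬ ∀ g : V → ℂ, InL2 g → ∃! f : V → ℂ, InL2 f ∧ ∀ v, L f v - z * f v = g v}

/-- The potential: `1/10` at the vertex `0` of the complete graph, `0` at the other three vertices. -/
noncomputable def b : Fin 4 → ℝ := fun i => if i = 0 then 1 / 10 else 0

/-- The complete graph on four vertices has a universal cover, and on every universal cover `T` of it,
with covering map `π`, the operator `A_T + b ∘ π` is bounded on `ℓ²` and has as spectrum the closed
interval `[α, β]`. -/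
theorem result : ∃ α β : ℝ, α ≤ -(13 / 5) ∧ 13 / 5 ≤ β ∧
    (∃ (V : Type) (T : SimpleGraph V) (π : V → Fin 4), IsUniversalCover T ⊤ π) ∧
    ∀ (V : Type) (T : SimpleGraph V) (π : V → Fin 4), IsUniversalCover T ⊤ π →
      IsBoundedOp (op T π b) ∧ spec (op T π b) = (fun x : ℝ => (x : ℂ)) '' Set.Icc α β := by
  obtain ⟨α, β, hα, hβ, hs⟩ := helper92.BorgOwn.spectrum_H
  refine ⟨α, β, hα, hβ, helper92.BorgOwn.exists_cover, ?_⟩
  intro V T π hT
  obtain ⟨H, h1, h2⟩ := helper92.BorgOwn.exists_operator V T π hT.1 hT.2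
  have h3 : ∀ (f : lp (fun _ : V => ℂ) 2) (v : V), (H f) v = op T π b (fun v => f v) v := fun f v => h1 f v
  constructor
  · refine ⟨‖H‖ ^ 2, fun f hf => ?_⟩
    obtain ⟨F, hF⟩ : ∃ F : lp (fun _ : V => ℂ) 2, ∀ v, F v = f v :=
      ⟨⟨f, helper92.BorgOwn.mem_lp hf⟩, fun _ => rfl⟩
    have hFf : (fun v => F v) = f := funext hF
    have h4 : ∀ v, (H F) v = op T π b f v := fun v => by rw [h3, hFf]
    have h5 : Summable fun v => ‖(H F) v‖ ^ 2 := helper92.BorgOwn.sumsq_lp (H F)
    have h6 : ‖H F‖ ^ 2 = ∑' v, ‖(H F) v‖ ^ 2 := helper92.BorgOwn.norm_sq_lp (H F)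
    have h7 : ‖F‖ ^ 2 = ∑' v, ‖F v‖ ^ 2 := helper92.BorgOwn.norm_sq_lp F
    simp only [h4] at h5 h6
    simp only [hF] at h7
    refine ⟨h5, ?_⟩
    rw [← h6, ← h7, ← mul_pow]
    exact pow_le_pow_left₀ (norm_nonneg _) (H.le_opNorm F) 2
  · rw [← hs, ← h2]
    ext z
    have h4 : z ∈ spectrum ℂ H ↔ ¬ Function.Bijective (algebraMap ℂ (lp (fun _ : V => ℂ) 2 →L[ℂ] lp (fun _ : V => ℂ) 2) z - H) := by
      rw [spectrum.mem_iff, ContinuousLinearMap.isUnit_iff_bijective]
    have h5 : ∀ (f : lp (fun _ : V => ℂ) 2) (v : V), ((algebraMap ℂ (lp (fun _ : V => ℂ) 2 →L[ℂ] lp (fun _ : V => ℂ) 2) z - H) f) v = -(op T π b (fun v => f v) v - z * f v) := by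
      intro f v
      have h6 : (algebraMap ℂ (lp (fun _ : V => ℂ) 2 →L[ℂ] lp (fun _ : V => ℂ) 2) z - H) f = z • f - H f := rfl
      rw [h6, lp.coeFn_sub, Pi.sub_apply, lp.coeFn_smul, Pi.smul_apply, smul_eq_mul, h3]
      ring
    rw [h4]
    show (¬ ∀ g : V → ℂ, InL2 g → ∃! f : V → ℂ, InL2 f ∧ ∀ v, op T π b f v - z * f v = g v) ↔ _
    refine not_congr ⟨fun h => ⟨fun F1 F2 he => ?_, fun G => ?_⟩, fun h g hg => ?_⟩
    · obtain ⟨f0, -, hu⟩ := h (fun v => -((algebraMap ℂ (lp (fun _ : V => ℂ) 2 →L[ℂ] lp (fun _ : V => ℂ) 2) z - H) F1) v) (by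
        have := helper92.BorgOwn.sumsq_lp ((algebraMap ℂ (lp (fun _ : V => ℂ) 2 →L[ℂ] lp (fun _ : V => ℂ) 2) z - H) F1)
        unfold InL2
        simp only [norm_neg]
        exact this)
      have e1 := hu (fun v => F1 v) ⟨helper92.BorgOwn.sumsq_lp F1, fun v => by rw [h5, neg_neg]⟩
      have e2 := hu (fun v => F2 v) ⟨helper92.BorgOwn.sumsq_lp F2, fun v => by rw [he, h5, neg_neg]⟩
      apply lp.ext
      funext v
      exact (congrFun e1 v).trans (congrFun e2 v).symm
    · obtain ⟨f, ⟨hf, hf2⟩, -⟩ := h (fun v => -G v) (by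
        have := helper92.BorgOwn.sumsq_lp G
        unfold InL2
        simp only [norm_neg]
        exact this)
      refine ⟨⟨f, helper92.BorgOwn.mem_lp hf⟩, ?_⟩
      apply lp.ext
      funext v
      rw [h5]
      have := hf2 v
      show -(op T π b f v - z * f v) = G v
      rw [this, neg_neg]
    · obtain ⟨F, hF⟩ := h.2 (-(⟨g, helper92.BorgOwn.mem_lp hg⟩ : lp (fun _ : V => ℂ) 2))
      have key : ∀ v, op T π b (fun v => F v) v - z * F v = g v := by
        intro v
        have e1 := congrArg (fun K : lp (fun _ : V => ℂ) 2 => K v) hF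
        simp only [h5] at e1
        exact neg_injective e1
      refine ⟨fun v => F v, ⟨helper92.BorgOwn.sumsq_lp F, key⟩, ?_⟩
      rintro f' ⟨hf', hf2⟩
      obtain ⟨F', hF'⟩ : ∃ F' : lp (fun _ : V => ℂ) 2, ∀ v, F' v = f' v :=
        ⟨⟨f', helper92.BorgOwn.mem_lp hf'⟩, fun _ => rfl⟩
      have hFf : (fun v => F' v) = f' := funext hF'
      have e2 : F' = F := by
        apply h.1
        apply lp.ext
        funext v
        rw [h5, h5, key, hFf, hF', hf2]
      rw [← hFf, e2]

end Pool.Agent.Results.MP_3a9720_mp.BorgCounterexample
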